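import Pool.Agent.H71.WE.Targets

/-!
# Row E1B of the weak linkage board
-/

set_option autoImplicit false
set_option linter.unusedSectionVars false

namespace Pool.Agent.H66.WE

open Finset Pool.Agent.H71.WE

section
variable {V E : Type} [Fintype V] [DecidableEq V] [DecidableEq E]

theorem ctr_some {S : Finset V} {v : V} (h : v ∉ S) : ctr S v = some ⟨v, h⟩ := by
  unfold ctr; rw [dif_neg h]

theorem ctr_none {S : Finset V} {v : V} (h : v ∈ S) : ctr S v = none := by
  unfold ctr; rw [dif_pos h]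

theorem ctr_eq_none {S : Finset V} {v : V} : ctr S v = none ↔ v ∈ S := by
  by_cases h : v ∈ S
  · simp [ctr_none h, h]
  · simp [ctr_some h, h]

theorem ctr_inj {S : Finset V} {v w : V} (h : w ∉ S) (he : ctr S v = ctr S w) : v = w := by
  rw [ctr_some h] at he
  by_cases hv : v ∈ S
  · rw [ctr_none hv] at he; cases he
  · rw [ctr_some hv] at he
    exact congrArg Subtype.val (Option.some.inj he)

theorem mem_pre {W : Type} [DecidableEq W] {f : V → W} {X : Finset W} {v : V} :
    v ∈ pre f X ↔ f v ∈ X := by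
  unfold pre; simp

theorem pre_single {S : Finset V} {v : V} (h : v ∉ S) : pre (ctr S) {ctr S v} = {v} := by
  ext w
  rw [mem_pre, mem_singleton, mem_singleton]
  exact ⟨fun hw => ctr_inj h hw, fun hw => by rw [hw]⟩

theorem pre_none {S : Finset V} : pre (ctr S) {none} = S := by
  ext w
  rw [mem_pre, mem_singleton, ctr_eq_none]

/-- if every edge of `B'` which crosses `X` is in `B`, then ... -/
theorem cn_le_of {G : Gr V E} {B B' : Finset E} {X : Finset V}
    (h : ∀ g ∈ B', Cr G X g → g ∈ B) : cn G B' X ≤ cn G B X := by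
  unfold cn
  apply card_le_card
  intro g hg
  rw [mem_filter] at hg ⊢
  exact ⟨h g hg.1 hg.2, hg.2⟩

end

theorem pf_E1B (h1 : T_CUT) (h2 : T_SEP) (h3 : T_GLU) (h4 : T_CTR) (h5 : T_TRN) (h6 : T_PTH)
    (h7 : T_QCT) : T_E1B := by
  intro V E _ _ _ G A r K v z e S hE hzK hSK hSn hcS hzS hIE
  obtain ⟨hr, hv, hzv, he, hj, hd, hc, hl⟩ := hE
  have hvS : v ∉ S := fun h => (disjoint_left.1 hSK h) hv
  have hSu : S ≠ univ := fun h => hvS (h ▸ mem_univ v)
  obtain ⟨hcn, hcoP, hctr⟩ := h4 V E G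
  obtain ⟨hex, -, hne, huniv, -⟩ := hctr S hSn
  have hcnS : ∀ (B : Finset E) (Z : Finset (Option {x : V // x ∉ S})),
      cn (mp G (ctr S)) B Z = cn G B (pre (ctr S) Z) := fun B Z => hcn _ (ctr S) B Z
  -- the hypotheses for the contracted graph
  have hEH : EH (mp G (ctr S)) A r (K.image (ctr S)) (ctr S v) (ctr S z) e := by
    refine ⟨hr, mem_image_of_mem _ hv, ?_, he, ?_, ?_, ?_, ?_⟩
    · exact fun h => hzv (ctr_inj hvS h)
    · rcases hj with ⟨ha, hb⟩ | ⟨ha, hb⟩
      · exact Or.inl ⟨by simp [mp, ha], by simp [mp, hb]⟩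
      · exact Or.inr ⟨by simp [mp, ha], by simp [mp, hb]⟩
    · rw [hcnS, pre_single hvS]; exact hd
    · intro Z hZ hZu
      rw [hcnS]
      exact hc _ ((hne Z).2 hZ) (fun h => hZu ((huniv Z).1 h))
    · intro Z hZ hZK
      rw [hcnS]
      refine hl _ ((hne Z).2 hZ) ?_
      rw [disjoint_left]
      intro x hx hxK
      rw [mem_pre] at hx
      exact disjoint_left.1 hZK hx (mem_image_of_mem _ hxK)
  obtain ⟨y1, hy1K, hy1v, D1, hD1, hcoD1, hKD1, hres1⟩ := hIE _ _ _ _ _ _ hEH
  obtain ⟨y, hyK, rfl⟩ := mem_image.1 hy1K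
  have hyS : y ∉ S := fun h => (disjoint_left.1 hSK h) hyK
  have hyv : y ≠ v := fun h => hy1v (by rw [h])
  obtain ⟨D0, hD01, hpt⟩ := pt_exists hcoD1
  obtain ⟨hloop, hdeg, -, -, hpar, -, -⟩ := h6 _ _ _ D0 _ _ hpt
  have hD0A : D0 ⊆ A.erase e := hD01.trans hD1
  have heA : ∀ g ∈ D0, g ∈ A := fun g hg => (mem_erase.1 (hD0A hg)).2
  -- edges of D0 with an end in S cross S
  have hcross : ∀ g ∈ D0, ∀ X : Finset V, X ⊆ S → Cr G X g → Cr G S g := by
    intro g hg X hXS hX
    have hl' := hloop g hg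
    have hnot : ¬ (G.s g ∈ S ∧ G.t g ∈ S) := by
      rintro ⟨ha, hb⟩
      apply hl'
      change ctr S (G.s g) = ctr S (G.t g)
      rw [ctr_none ha, ctr_none hb]
    rcases hX with ⟨ha, _⟩ | ⟨_, hb⟩
    · have ha' := hXS ha
      exact Or.inl ⟨ha', fun hb' => hnot ⟨ha', hb'⟩⟩
    · have hb' := hXS hb
      exact Or.inr ⟨fun ha' => hnot ⟨ha', hb'⟩, hb'⟩
  have heS : ∀ X : Finset V, X ⊆ S → ¬ Cr G X e := by
    intro X hXS hX
    rw [jn_cr hj X] at hX
    rcases hX with ⟨ha, _⟩ | ⟨_, hb⟩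
    · exact hvS (hXS ha)
    · exact hzS (hXS hb)
  -- the K-condition for the edges of D0
  have hKD0 : ∀ g ∈ D0, (G.s g ∈ K → G.s g = y) ∧ (G.t g ∈ K → G.t g = y) := by
    intro g hg
    obtain ⟨ha, hb⟩ := hKD1 g (hD01 hg)
    exact ⟨fun h => ctr_inj hyS (ha (mem_image_of_mem _ h)),
      fun h => ctr_inj hyS (hb (mem_image_of_mem _ h))⟩
  -- the residual outside
  have hout : ∀ F : Finset E, (∀ g ∈ F, G.s g ∈ S ∧ G.t g ∈ S) →
      ∀ X : Finset V, S ⊆ X → X ≠ univ →
      r ≤ cn G (A \ insert e (D0 ∪ F)) X + sep v y X := by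
    intro F hF X hSX hXu
    obtain ⟨Z, rfl⟩ := hex X (Or.inl hSX)
    have hZn : Z.Nonempty := (hne Z).1 (hSn.mono hSX)
    have hZu : Z ≠ univ := fun h => hXu ((huniv Z).2 h)
    have h8 := hres1 Z hZn hZu
    rw [hcnS] at h8
    have h9 : sep (ctr S v) (ctr S y) Z = sep v y (pre (ctr S) Z) := by
      unfold sep; simp only [mem_pre]
    rw [h9] at h8
    refine h8.trans (Nat.add_le_add_right ?_ _)
    apply cn_le_of
    intro g hg hcr
    rw [mem_sdiff, mem_insert] at hg ⊢
    refine ⟨hg.1, ?_⟩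
    rintro (h10 | h10)
    · exact hg.2 (Or.inl h10)
    · rcases mem_union.1 h10 with h10 | h10
      · exact hg.2 (Or.inr (hD01 h10))
      · obtain ⟨ha, hb⟩ := hF g h10
        rcases hcr with ⟨_, hc'⟩ | ⟨hc', _⟩
        · exact hc' (hSX hb)
        · exact hc' (hSX ha)
  have hcf : ∀ B : Finset E, CF (fun X => cn G B X + sep v y X) := fun B =>
    (h2 V).2 _ _ (h1 V E G B) ((h2 V).1 v y)
  have hsepS : sep v y S = 0 := by
    unfold sep; simp [hvS, hyS]
  have hev : Even (cn (mp G (ctr S)) D0 {none}) := by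
    have h8 := hpar none
    have h9 : sep (ctr S z) (ctr S y) {none} = 0 := by
      unfold sep
      have ha : ctr S z ≠ none := fun h => hzS (ctr_eq_none.1 h)
      have hb : ctr S y ≠ none := fun h => hyS (ctr_eq_none.1 h)
      simp [ha, hb]
    rw [h9, add_zero] at h8
    exact h8
  have hle2 := hdeg none
  rw [hcnS, pre_none] at hev hle2
  have hsubX : ∀ X : Finset V, X.Nonempty → X ⊆ S → r + 2 ≤ cn G A X := by
    intro X hX hXS
    exact hl X hX (disjoint_of_subset_left hXS hSK)
  have hcases : cn G D0 S = 0 ∨ cn G D0 S = 2 := by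
    obtain ⟨k, hk⟩ := hev
    omega
  rcases hcases with h0 | h0
  · -- no edge of D0 meets S
    have hno : ∀ g ∈ D0, ¬ Cr G S g := by
      intro g hg hcr
      have : g ∈ D0.filter (fun e => Cr G S e) := mem_filter.2 ⟨hg, hcr⟩
      have h8 : 0 < cn G D0 S := card_pos.2 ⟨g, this⟩
      omega
    refine ⟨y, hyK, hyv, D0, hD0A, ?_, hKD0, ?_⟩
    · have h8 := h5 V E G S ∅ D0 ∅ z y (fun g hg hcr => absurd hcr (hno g hg))
        (fun h => absurd h hzS) (fun h => absurd h hyS) (fun x hx => by simp at hx) hpt.1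
      rw [union_empty] at h8
      exact h8
    · refine h3 V (fun X => cn G (A \ insert e D0) X + sep v y X) (hcf _) r (r + 2) S hr
        (hr.add (by decide)) (by omega) hSn hSu ?_ ?_ ?_
      · intro X hX hXS _
        refine (hsubX X hX hXS).trans (le_trans ?_ (Nat.le_add_right _ _))
        apply cn_le_of
        intro g hg hcr
        rw [mem_sdiff, mem_insert]
        refine ⟨hg, ?_⟩
        rintro (h10 | h10)
        · exact heS X hXS (h10 ▸ hcr)
        · exact hno g h10 (hcross g h10 X hXS hcr)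
      · intro X hSX hXu
        have := hout ∅ (fun g hg => by simp at hg) X hSX hXu
        rw [union_empty] at this
        exact this
      · have h8 : cn G (A \ insert e D0) S ≤ cn G A S := cn_mono G sdiff_subset S
        change cn G (A \ insert e D0) S + sep v y S ≤ r + 2 + 1
        omega
  · -- two edges of D0 cross S
    have hcard : (D0.filter (fun e => Cr G S e)).card = 2 := h0
    obtain ⟨f1, f2, hf12, hfil⟩ := card_eq_two.1 hcard
    have hf1 : f1 ∈ D0.filter (fun e => Cr G S e) := by rw [hfil]; simp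
    have hf2 : f2 ∈ D0.filter (fun e => Cr G S e) := by rw [hfil]; simp
    rw [mem_filter] at hf1 hf2
    have hend : ∀ g, Cr G S g → ∃ w ∈ S, (G.s g = w ∨ G.t g = w) ∧
        (G.s g ∈ S → G.s g = w) ∧ (G.t g ∈ S → G.t g = w) := by
      intro g hg
      rcases hg with ⟨ha, hb⟩ | ⟨ha, hb⟩
      · exact ⟨_, ha, Or.inl rfl, fun _ => rfl, fun h => absurd h hb⟩
      · exact ⟨_, hb, Or.inr rfl, fun h => absurd h ha, fun _ => rfl⟩
    obtain ⟨w1, hw1, hw1e, hw1s, hw1t⟩ := hend f1 hf1.2
    obtain ⟨w2, hw2, hw2e, hw2s, hw2t⟩ := hend f2 hf2.2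
    obtain ⟨F, hFA, hFS, hFco, hFres⟩ := h7 V E G A r S w1 w2 f1 f2 hr hSu hsubX hcS
      (heA f1 hf1.1) (heA f2 hf2.1) hf12 hf1.2 hf2.2 hw1 hw2 hw1e hw2e
    have hmem : ∀ g ∈ D0, Cr G S g → g = f1 ∨ g = f2 := by
      intro g hg hcr
      have : g ∈ D0.filter (fun e => Cr G S e) := mem_filter.2 ⟨hg, hcr⟩
      rw [hfil] at this
      simpa using this
    have heF : e ∉ F := by
      intro h
      obtain ⟨ha, hb⟩ := hFS e h
      rcases hj with ⟨hs, _⟩ | ⟨_, ht⟩
      · exact hvS (hs ▸ ha)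
      · exact hvS (ht ▸ hb)
    refine ⟨y, hyK, hyv, D0 ∪ F, ?_, ?_, ?_, ?_⟩
    · intro g hg
      rcases mem_union.1 hg with hg | hg
      · exact hD0A hg
      · exact mem_erase.2 ⟨fun h => heF (h ▸ hg), hFA hg⟩
    · refine h5 V E G S {w1, w2} D0 F z y ?_ (fun h => absurd h hzS) (fun h => absurd h hyS)
        ?_ hpt.1
      · intro g hg hcr
        rcases hmem g hg hcr with rfl | rfl
        · exact ⟨fun h => by rw [hw1s h]; simp, fun h => by rw [hw1t h]; simp⟩
        · exact ⟨fun h => by rw [hw2s h]; simp, fun h => by rw [hw2t h]; simp⟩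
      · intro x hx x' hx'
        rw [mem_insert, mem_singleton] at hx hx'
        rcases hx with rfl | rfl <;> rcases hx' with rfl | rfl
        · exact co_refl G F _
        · exact hFco
        · exact co_symm hFco
        · exact co_refl G F _
    · intro g hg
      rcases mem_union.1 hg with hg | hg
      · exact hKD0 g hg
      · obtain ⟨ha, hb⟩ := hFS g hg
        exact ⟨fun h => absurd h (disjoint_left.1 hSK ha),
          fun h => absurd h (disjoint_left.1 hSK hb)⟩
    · refine h3 V (fun X => cn G (A \ insert e (D0 ∪ F)) X + sep v y X) (hcf _) r r S hr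
        hr le_rfl hSn hSu ?_ (hout F hFS) ?_
      · intro X hX hXS _
        refine (hFres X hX hXS).trans (le_trans ?_ (Nat.le_add_right _ _))
        apply cn_le_of
        intro g hg hcr
        rw [mem_sdiff, mem_union, mem_insert, mem_singleton] at hg
        rw [mem_sdiff, mem_insert]
        refine ⟨hg.1, ?_⟩
        rintro (h10 | h10)
        · exact heS X hXS (h10 ▸ hcr)
        · rcases mem_union.1 h10 with h10 | h10
          · exact hg.2 (Or.inr (hmem g h10 (hcross g h10 X hXS hcr)))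
          · exact hg.2 (Or.inl h10)
      · change cn G (A \ insert e (D0 ∪ F)) S + sep v y S ≤ r + 1
        have hsub : insert e (D0 ∪ F) ⊆ A := by
          intro g hg
          rcases mem_insert.1 hg with rfl | hg
          · exact he
          · rcases mem_union.1 hg with hg | hg
            · exact heA g hg
            · exact hFA hg
        have h8 := cn_sdiff G hsub S
        have h9 : cn G D0 S ≤ cn G (insert e (D0 ∪ F)) S :=
          cn_mono G (subset_union_left.trans (subset_insert _ _)) S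
        omega

end Pool.Agent.H66.WE
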