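import Pool.Agent.H71.WE.Targets

/-!
# Rows E4 and E5 of the weak linkage board
-/

set_option autoImplicit false
set_option linter.unusedSectionVars false

namespace Pool.Agent.H66.WE

open Finset Pool.Agent.H71.WE

section
variable {V E : Type} [Fintype V] [DecidableEq V] [DecidableEq E]

theorem cn_single (G : Gr V E) (g : E) (X : Finset V) :
    cn G {g} X = if Cr G X g then 1 else 0 := by
  unfold cn
  rw [filter_singleton]
  split_ifs <;> simp

theorem cn_erase (G : Gr V E) {A : Finset E} {g : E} (hg : g ∈ A) (X : Finset V) :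
    cn G (A.erase g) X + (if Cr G X g then 1 else 0) = cn G A X := by
  rw [← cn_single, ← sdiff_singleton_eq_erase]
  exact cn_sdiff G (singleton_subset_iff.2 hg) X

theorem cn_pair (G : Gr V E) {e g : E} (h : e ≠ g) (X : Finset V) :
    cn G {e, g} X = (if Cr G X e then 1 else 0) + (if Cr G X g then 1 else 0) := by
  unfold cn
  rw [filter_insert, filter_singleton]
  have h1 : e ∉ (if Cr G X g then ({g} : Finset E) else ∅) := by
    split_ifs <;> simp [h]
  by_cases he : Cr G X e
  · rw [if_pos he, if_pos he, card_insert_of_notMem h1]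
    split_ifs <;> simp
  · rw [if_neg he, if_neg he]
    split_ifs <;> simp

end

theorem pf_E4 : T_E4 := by
  intro V E _ _ _ G A r K v z e g hE hg hs ht hst h2 h3 h4 ih
  obtain ⟨hr, hv, hzv, he, hj, hd, hc, hl⟩ := hE
  have hne : e ≠ g := by
    rintro rfl
    rcases hj with ⟨h, _⟩ | ⟨_, h⟩
    · exact hs (h ▸ hv)
    · exact ht (h ▸ hv)
  have hdisj : ∀ X : Finset V, X.Nonempty → Disjoint X K → r + 3 ≤ cn G A X := by
    intro X hX hXK
    by_cases hcard : 2 ≤ X.card
    · have := h2 X hXK hcard; omega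
    · have h1 : X.card = 1 := by
        have := card_pos.2 hX; omega
      obtain ⟨x, rfl⟩ := card_eq_one.1 h1
      have hxK : x ∉ K := disjoint_singleton_left.1 hXK
      have h5 := hl {x} hX hXK
      have h6 := h3 x hxK
      by_contra hlt
      apply h6
      have : cn G A {x} = r + 2 := by omega
      rw [this]
      exact hr.add (by decide)
  have hend : ∀ X : Finset V, Cr G X g → ∃ a ∈ X, a ∉ K := by
    intro X hX
    rcases hX with ⟨h, _⟩ | ⟨_, h⟩
    · exact ⟨_, h, hs⟩
    · exact ⟨_, h, ht⟩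
  have hcard2 : ∀ X : Finset V, Cr G X g → ¬ Disjoint X K → 2 ≤ X.card := by
    intro X hX hXK
    obtain ⟨a, ha, haK⟩ := hend X hX
    obtain ⟨b, hb, hbK⟩ := not_disjoint_iff.1 hXK
    exact one_lt_card.2 ⟨a, ha, b, hb, fun h => haK (h ▸ hbK)⟩
  have hboth : ∀ X : Finset V, X.Nonempty → X ≠ univ → Cr G X g → r + 2 ≤ cn G A X := by
    intro X hX hXu hcr
    have hXc : Xᶜ.Nonempty := by
      rw [nonempty_iff_ne_empty, Ne, compl_eq_empty_iff]; exact hXu
    have hcr' : Cr G Xᶜ g := (cr_compl G X g).2 hcr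
    by_cases hd1 : Disjoint X K
    · have := hdisj X hX hd1; omega
    · by_cases hd2 : Disjoint Xᶜ K
      · have := hdisj Xᶜ hXc hd2
        rw [cn_compl] at this; omega
      · have c1 := hcard2 X hcr hd1
        have c2 := hcard2 Xᶜ hcr' hd2
        by_cases hvX : v ∈ X
        · have := h4 Xᶜ (by simpa using hvX) c2 (by rw [compl_compl]; exact c1)
          rw [cn_compl] at this; exact this
        · exact h4 X hvX c1 c2
  have hEH : EH G (A.erase g) r K v z e := by
    refine ⟨hr, hv, hzv, mem_erase.2 ⟨hne, he⟩, hj, (cn_mono G (erase_subset g A) _).trans hd,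
      ?_, ?_⟩
    · intro X hX hXu
      have h5 := cn_erase G hg X
      by_cases hcr : Cr G X g
      · have := hboth X hX hXu hcr
        rw [if_pos hcr] at h5; omega
      · have := hc X hX hXu
        rw [if_neg hcr] at h5; omega
    · intro X hX hXK
      have h5 := cn_erase G hg X
      by_cases hcr : Cr G X g
      · have := hdisj X hX hXK
        rw [if_pos hcr] at h5; omega
      · have := hl X hX hXK
        rw [if_neg hcr] at h5; omega
  obtain ⟨y, hyK, hyv, D, hD, hco, hK, hres⟩ := ih hEH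
  refine ⟨y, hyK, hyv, D, ?_, hco, hK, ?_⟩
  · intro x hx
    have := hD hx
    rw [mem_erase, mem_erase] at this
    exact mem_erase.2 ⟨this.1, this.2.2⟩
  · intro X hX hXu
    refine (hres X hX hXu).trans (Nat.add_le_add_right (cn_mono G ?_ X) _)
    exact sdiff_subset_sdiff (erase_subset g A) (Subset.refl _)

theorem pf_E5 : T_E5 := by
  intro V E _ _ _ G A r K v z e hE hz h1 h3 h4
  obtain ⟨hr, hv, hzv, he, hj, hd, hc, hl⟩ := hE
  have hzs : r + 3 ≤ cn G A {z} := by
    have h5 := hl {z} (singleton_nonempty z) (disjoint_singleton_left.2 hz)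
    have h6 := h3 z hz
    by_contra hlt
    apply h6
    have : cn G A {z} = r + 2 := by omega
    rw [this]
    exact hr.add (by decide)
  obtain ⟨g, hgA, hgz, hgv⟩ : ∃ g ∈ A, Cr G {z} g ∧ ¬ Cr G {v} g := by
    by_contra hno
    have hsub : A.filter (fun e => Cr G {z} e) ⊆ A.filter (fun e => Cr G {v} e) := by
      intro g hg
      rw [mem_filter] at hg ⊢
      refine ⟨hg.1, ?_⟩
      by_contra hcon
      exact hno ⟨g, hg.1, hg.2, hcon⟩
    have h5 : cn G A {z} ≤ cn G A {v} := card_le_card hsub
    omega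
  obtain ⟨y, hyz, hjg⟩ : ∃ y, y ≠ z ∧ Jn G g z y := by
    rcases hgz with ⟨ha, hb⟩ | ⟨ha, hb⟩
    · rw [mem_singleton] at ha hb
      exact ⟨_, hb, Or.inl ⟨ha, rfl⟩⟩
    · rw [mem_singleton] at ha hb
      exact ⟨_, ha, Or.inr ⟨rfl, hb⟩⟩
  have hyv : y ≠ v := by
    rintro rfl
    exact hgv ((jn_cr hjg {y}).2 (Or.inr ⟨by simpa using hzv, by simp⟩))
  have hyK : y ∈ K := by
    by_contra hyK
    rcases hjg with ⟨ha, hb⟩ | ⟨ha, hb⟩
    · have := h1 g hgA (ha ▸ hz) (hb ▸ hyK)
      exact hyz (by rw [← ha, ← hb]; exact this.symm)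
    · have := h1 g hgA (ha ▸ hyK) (hb ▸ hz)
      exact hyz (by rw [← ha, ← hb]; exact this)
  have hge : e ≠ g := by
    rintro rfl
    exact hgv ((jn_cr hj {v}).2 (Or.inl ⟨by simp, by simpa using hzv⟩))
  refine ⟨y, hyK, hyv, {g}, ?_, co_edge hjg, ?_, ?_⟩
  · intro x hx
    rw [mem_singleton] at hx
    subst hx
    exact mem_erase.2 ⟨hge.symm, hgA⟩
  · intro g' hg'
    rw [mem_singleton] at hg'
    subst hg'
    rcases hjg with ⟨ha, hb⟩ | ⟨ha, hb⟩
    · exact ⟨fun h => absurd (ha ▸ h) hz, fun _ => hb⟩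
    · exact ⟨fun _ => ha, fun h => absurd (hb ▸ h) hz⟩
  · intro X hX hXu
    have hsub : insert e {g} ⊆ A := by
      intro x hx
      rw [mem_insert, mem_singleton] at hx
      rcases hx with rfl | rfl
      · exact he
      · exact hgA
    have h5 := cn_sdiff G hsub X
    have h6 : cn G (insert e {g}) X = _ := cn_pair G hge X
    rw [h6] at h5
    have h7 := hc X hX hXu
    have hXc : Xᶜ.Nonempty := by
      rw [nonempty_iff_ne_empty, Ne, compl_eq_empty_iff]; exact hXu
    have key : ∀ Y : Finset V, z ∈ Y → v ∉ Y → y ∉ Y → r + 2 ≤ cn G A Y := by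
      intro Y hzY hvY hyY
      by_cases hcard : 2 ≤ Y.card
      · exact h4 Y hvY hcard (one_lt_card.2 ⟨v, by simpa using hvY, y, by simpa using hyY,
          hyv.symm⟩)
      · have h1c : Y.card = 1 := by
          have := card_pos.2 ⟨z, hzY⟩; omega
        obtain ⟨x, rfl⟩ := card_eq_one.1 h1c
        rw [mem_singleton] at hzY
        subst hzY
        omega
    have hce := jn_cr hj X
    have hcg := jn_cr hjg X
    unfold sep
    by_cases ha : v ∈ X <;> by_cases hb : z ∈ X <;> by_cases hcc : y ∈ X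
    all_goals simp only [ha, hb, hcc, not_true_eq_false, not_false_eq_true, and_true, and_false,
      or_false, or_true, and_self, or_self, true_and, false_and, if_true, if_false, iff_true,
      iff_false] at hce hcg h5 ⊢
    all_goals simp only [hce, hcg, if_true, if_false] at h5
    all_goals try omega
    · have := key Xᶜ (by simpa using hb) (by simpa using ha) (by simpa using hcc)
      rw [cn_compl] at this
      omega
    · have := key X hb ha hcc
      omega

end Pool.Agent.H66.WE
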